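import Pool.Agent.H39.LP.Final

/-!
# The infinite loop-erased random walk of `ℤ^d` has exponential intersection tails iff `d ≥ 5`

All definitions used in the statement are in `Pool/Agent/H39/LW/Basic.lean`.
-/

namespace Pool.Agent.Results.MP_23bc29_pr.ExactlyFiveAndUp

open Pool.Agent.H39.LW

/-- For `d ≥ 3`, the law of the infinite loop-erased random walk from the origin of `ℤ^d` has the
exponential intersection tail property if and only if `d ≥ 5`. -/
theorem result : ∀ d : ℕ, ∀ [NeZero d], 3 ≤ d → (HasEIT (lerwLaw d) ↔ 5 ≤ d) := by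
  intro d _ hd
  exact Pool.Agent.H39.LP.main d hd

end Pool.Agent.Results.MP_23bc29_pr.ExactlyFiveAndUp
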